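import Pool.Agent.X14.QMain

set_option autoImplicit false

namespace Pool.Agent.Results.MP_594717_nt.Exponent

open Finset Polynomial

noncomputable section

/-- `[p] = 1 + q + ⋯ + q^{p-1}` as a polynomial in the indeterminate `q` -/
def qint (p : ℕ) : ℚ[X] := ∑ i ∈ range p, X ^ i

/-- the indeterminate `q` in `ℚ(q)` -/
def q : RatFunc ℚ := RatFunc.X

/-- `(a;Q)_k = (1-a)(1-aQ)⋯(1-aQ^{k-1})` -/
def poch {R : Type*} [CommRing R] (a Q : R) (k : ℕ) : R := ∏ j ∈ range k, (1 - a * Q ^ j)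

/-- `c_k = (q^r;q^m)_k (q^{m-r};q^m)_k / (q^m;q^m)_k^2` -/
def c (m r k : ℕ) : RatFunc ℚ :=
  poch (q ^ r) (q ^ m) k * poch (q ^ ((m : ℤ) - r)) (q ^ m) k / poch (q ^ m) (q ^ m) k ^ 2

/-- left-hand side, a polynomial in `x` over `ℚ(q)` -/
def L (p m r : ℕ) : (RatFunc ℚ)[X] := ∑ k ∈ range p, C (c m r k) * X ^ k

/-- `∑_{k<p} c_k q^{mk} (x;q^m)_k` -/
def R (p m r : ℕ) : (RatFunc ℚ)[X] :=
  ∑ k ∈ range p, C (c m r k) * C (q ^ (m * k)) * poch X (C (q ^ m)) k

/-- `⟨-r/m⟩_p` -/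
def res (p m r : ℕ) : ℕ := (-(r : ZMod p) * (m : ZMod p)⁻¹).val

/-- `A ≡ B (mod [p]^2)`: `A - B = [p]^2 D` where all coefficients of the polynomial `D` (in `x`) have
denominators coprime to `[p]` -/
def ModEq (p : ℕ) (A B : (RatFunc ℚ)[X]) : Prop :=
  ∃ D : (RatFunc ℚ)[X], (∀ i : ℕ, IsCoprime (D.coeff i).denom (qint p)) ∧
    A - B = C (algebraMap ℚ[X] (RatFunc ℚ) (qint p)) ^ 2 * D

/-- the congruence `(*)` with exponent `f` -/
def Cong (p m r : ℕ) (f : ℤ) : Prop :=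
  ModEq p (L p m r) (C ((-1) ^ (res p m r) * q ^ f) * R p m r)

lemma c_eq (m r k : ℕ) : c m r k = Pool.Agent.X14.QMain.c m r k := by
  unfold c Pool.Agent.X14.QMain.c poch
  rw [← prod_mul_distrib, ← prod_pow, ← prod_div_distrib]
  apply prod_congr rfl
  intro j _
  have hq : q ≠ 0 := Pool.Agent.X14.QLoc.q_ne
  have e1 : q ^ r * (q ^ m) ^ j = Pool.Agent.X14.QLoc.q ^ ((r : ℤ) + j * m) := by
    show q ^ r * (q ^ m) ^ j = q ^ ((r : ℤ) + j * m)
    rw [← pow_mul, ← zpow_natCast, ← zpow_natCast, ← zpow_add₀ hq]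
    congr 1; push_cast; ring
  have e2 : q ^ ((m : ℤ) - r) * (q ^ m) ^ j = Pool.Agent.X14.QLoc.q ^ ((m : ℤ) - r + j * m) := by
    show q ^ ((m : ℤ) - r) * (q ^ m) ^ j = q ^ ((m : ℤ) - r + j * m)
    rw [← pow_mul, ← zpow_natCast, ← zpow_add₀ hq]
    congr 1; push_cast; ring
  have e3 : q ^ m * (q ^ m) ^ j = Pool.Agent.X14.QLoc.q ^ ((j + 1) * m) := by
    show q ^ m * (q ^ m) ^ j = q ^ ((j + 1) * m)
    rw [← pow_mul, ← pow_add]
    congr 1; ring
  rw [e1, e2, e3]

lemma L_eq (p m r : ℕ) : L p m r = Pool.Agent.X14.QMain.S p m r := by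
  unfold L Pool.Agent.X14.QMain.S
  simp_rw [c_eq]

lemma R_eq (p m r : ℕ) : R p m r = Pool.Agent.X14.QMain.T p m r := by
  unfold R Pool.Agent.X14.QMain.T
  apply sum_congr rfl
  intro k _
  rw [c_eq, ← C_mul]
  congr 1
  unfold poch
  apply prod_congr rfl
  intro j _
  rw [← C_pow, ← pow_mul, mul_comm m j]
  rfl

lemma modEq_iff {p : ℕ} (A B : (RatFunc ℚ)[X]) : ModEq p A B ↔
    ∀ i : ℕ, ∃ y ∈ Pool.Agent.X14.QLoc.O p, (A - B).coeff i = algebraMap ℚ[X] (RatFunc ℚ) (qint p) ^ 2 * y := by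
  constructor
  · rintro ⟨D, h1, h2⟩ i
    refine ⟨D.coeff i, ⟨(D.coeff i).num, (D.coeff i).denom, h1 i, Pool.Agent.X14.QLoc.mul_denom _⟩, ?_⟩
    rw [h2, ← C_pow, coeff_C_mul]
  · intro h
    choose y hy1 hy2 using h
    by_cases hg : algebraMap ℚ[X] (RatFunc ℚ) (qint p) = 0
    · have hg0 : qint p = 0 := by
        by_contra hne
        exact Pool.Agent.X14.QLoc.alg_ne hne hg
      refine ⟨0, ?_, ?_⟩
      · intro i
        rw [coeff_zero, RatFunc.denom_zero]
        exact isCoprime_one_left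
      · ext i
        rw [hy2 i, hg]; simp
    · refine ⟨C ((algebraMap ℚ[X] (RatFunc ℚ) (qint p) ^ 2)⁻¹) * (A - B), ?_, ?_⟩
      · intro i
        rw [coeff_C_mul, hy2 i, inv_mul_cancel_left₀ (pow_ne_zero 2 hg)]
        obtain ⟨a, b, h3, h4⟩ := hy1 i
        have h5 : algebraMap ℚ[X] (RatFunc ℚ) ((y i).num * b) = algebraMap ℚ[X] (RatFunc ℚ) (a * (y i).denom) := by
          rw [map_mul, map_mul, ← h4, ← Pool.Agent.X14.QLoc.mul_denom]; ring
        have h6 : (y i).num * b = a * (y i).denom := RatFunc.algebraMap_injective ℚ h5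
        have h7 : (y i).denom ∣ (y i).num * b := ⟨a, by rw [h6]; ring⟩
        have h8 : (y i).denom ∣ b := (RatFunc.isCoprime_num_denom (y i)).symm.dvd_of_dvd_mul_left h7
        exact IsCoprime.of_isCoprime_of_dvd_left h3 h8
      · rw [← mul_assoc, ← C_pow, ← C_mul, mul_inv_cancel₀ (pow_ne_zero 2 hg), C_1, one_mul]

/-- **Q1.** If `p` is an odd prime, `1 ≤ r < m` and `p ≡ ±1 (mod m)`, then `(*)` holds for exactly one
integer `f`, namely `f = r(m-r)(1-p^2)/(2m)`. -/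
theorem result : ∀ p m r : ℕ, p.Prime → p ≠ 2 → 1 ≤ r → r < m →
    ((p : ℤ) ≡ 1 [ZMOD m] ∨ (p : ℤ) ≡ -1 [ZMOD m]) →
    ∀ f : ℤ, Cong p m r f ↔ (f : ℚ) = (r : ℚ) * ((m : ℚ) - r) * (1 - (p : ℚ) ^ 2) / (2 * m) := by
  intro p m r hp h2 hr hrm hpmod f
  have hm : 1 ≤ m := by omega
  have hm2 : 2 ≤ m := by omega
  have hpm : ¬ p ∣ m := by
    intro hd
    have hpd : (p : ℤ) ∣ m := by exact_mod_cast hd
    have h1 : (p : ℤ) ∣ 1 := by
      rcases hpmod with h | h
      · have h5 : (p : ℤ) ∣ 1 - p := dvd_trans hpd (Int.modEq_iff_dvd.1 h)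
        have := dvd_add h5 (dvd_refl (p : ℤ))
        simpa using this
      · have h5 : (p : ℤ) ∣ -1 - p := dvd_trans hpd (Int.modEq_iff_dvd.1 h)
        have := dvd_add h5 (dvd_refl (p : ℤ))
        have h6 : (p : ℤ) ∣ -1 := by simpa using this
        exact (dvd_neg.1 h6)
    have h7 := Int.le_of_dvd one_pos h1
    have := hp.one_lt
    omega
  obtain ⟨h, hh⟩ : ∃ h, p = 2 * h + 1 := by
    rcases hp.eq_two_or_odd' with h | h
    · exact absurd h h2
    · exact h
  have hh2 : (p - 1) / 2 = h := by omega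
  -- reduction to the explicit exponent
  have key : ∀ n : ℕ, n < p → p ∣ r + n * m → (Cong p m r f ↔ f = Pool.Agent.X14.QMain.fexp p m r n) := by
    intro n hn hnr
    have hres : res p m r = n := Pool.Agent.X14.QMain.res_unique hp hpm hn hnr
    unfold Cong
    rw [L_eq, R_eq, hres, modEq_iff]
    constructor
    · intro hc
      exact Pool.Agent.X14.QMain.unique hp hc (Pool.Agent.X14.QMain.holds hp h2 hm hpm hn hnr)
    · rintro rfl
      exact Pool.Agent.X14.QMain.holds hp h2 hm hpm hn hnr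
  have hm0 : (m : ℚ) ≠ 0 := by positivity
  have tri : ∀ n : ℕ, (((n * (n + 1) / 2 : ℕ)) : ℚ) = n * (n + 1) / 2 := by
    intro n
    have a1 : n * (n + 1) / 2 * 2 = n * (n + 1) := Nat.div_mul_cancel (Nat.even_mul_succ_self n).two_dvd
    have a2 : (((n * (n + 1) / 2 : ℕ)) : ℚ) * 2 = n * (n + 1) := by exact_mod_cast a1
    linarith
  -- final comparison
  have fin : ∀ n : ℕ, ((Pool.Agent.X14.QMain.fexp p m r n : ℤ) : ℚ) = (r : ℚ) * ((m : ℚ) - r) * (1 - (p : ℚ) ^ 2) / (2 * m) →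
      (f = Pool.Agent.X14.QMain.fexp p m r n ↔ (f : ℚ) = (r : ℚ) * ((m : ℚ) - r) * (1 - (p : ℚ) ^ 2) / (2 * m)) := by
    intro n hn
    rw [← hn]
    constructor
    · rintro rfl; rfl
    · intro h; exact_mod_cast h
  rcases hpmod with hmod | hmod
  · -- p = 1 + m t
    obtain ⟨t, ht⟩ := Int.modEq_iff_dvd.1 hmod.symm
    have ht0 : 0 < t := by
      by_contra hc
      have : (m : ℤ) * t ≤ 0 := mul_nonpos_of_nonneg_of_nonpos (by positivity) (by omega)
      have := hp.one_lt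
      omega
    obtain ⟨t, rfl⟩ : ∃ t' : ℕ, t = t' := ⟨t.toNat, by omega⟩
    have hpt : p = m * t + 1 := by
      have : (p : ℤ) = ((m * t + 1 : ℕ) : ℤ) := by push_cast; linarith
      exact_mod_cast this
    have hn : r * t < p := by rw [hpt]; nlinarith
    have hd : p ∣ r + r * t * m := ⟨r, by rw [hpt]; ring⟩
    rw [key (r * t) hn hd]
    apply fin
    unfold Pool.Agent.X14.QMain.fexp
    rw [hh2]
    have hT := tri (r * t)
    generalize (r * t * (r * t + 1) / 2 : ℕ) = T at *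
    push_cast at hT ⊢
    rw [hT]
    have hhq : (h : ℚ) = (m * t) / 2 := by
      have : (2 * h : ℕ) = m * t := by omega
      have h5 : (2 : ℚ) * h = m * t := by exact_mod_cast this
      linarith
    rw [hhq, hpt]
    push_cast
    field_simp
    ring
  · -- p = m t - 1
    obtain ⟨t, ht⟩ := Int.modEq_iff_dvd.1 hmod.symm
    have ht0 : 0 < t := by
      by_contra hc
      have : (m : ℤ) * t ≤ 0 := mul_nonpos_of_nonneg_of_nonpos (by positivity) (by omega)
      omega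
    obtain ⟨t, rfl⟩ : ∃ t' : ℕ, t = t' := ⟨t.toNat, by omega⟩
    have ht0' : 0 < t := by exact_mod_cast ht0
    have hpt : p + 1 = m * t := by
      have : ((p + 1 : ℕ) : ℤ) = ((m * t : ℕ) : ℤ) := by push_cast; linarith
      exact_mod_cast this
    have hrt : r * t ≤ p := by nlinarith
    obtain ⟨n, hn⟩ : ∃ n, p = n + r * t := ⟨p - r * t, by omega⟩
    have hnp : n < p := by
      have : 0 < r * t := Nat.mul_pos hr ht0'
      omega
    have hd : p ∣ r + n * m := by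
      have e : (r : ℤ) + n * m = p * (m - r) := by
        have h5 : (n : ℤ) = p - r * t := by rw [hn]; push_cast; ring
        have h6 : (m : ℤ) * t = p + 1 := by exact_mod_cast hpt.symm
        rw [h5]
        linear_combination (-(r : ℤ)) * h6
      have : (p : ℤ) ∣ ((r + n * m : ℕ) : ℤ) := ⟨(m : ℤ) - r, by push_cast; exact e⟩
      exact_mod_cast this
    rw [key n hnp hd]
    apply fin
    unfold Pool.Agent.X14.QMain.fexp
    rw [hh2]
    have hT := tri n
    generalize (n * (n + 1) / 2 : ℕ) = T at *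
    push_cast at hT ⊢
    rw [hT]
    have hpq : (p : ℚ) = m * t - 1 := by
      have : ((p + 1 : ℕ) : ℚ) = ((m * t : ℕ) : ℚ) := by rw [hpt]
      push_cast at this; linarith
    have hnq : (n : ℚ) = m * t - 1 - r * t := by
      have : (p : ℚ) = n + r * t := by exact_mod_cast hn
      linarith
    have hhq : (h : ℚ) = (m * t - 2) / 2 := by
      have : (p : ℚ) = 2 * h + 1 := by exact_mod_cast hh
      linarith
    rw [hhq, hnq, hpq]
    field_simp
    ring

end

end Pool.Agent.Results.MP_594717_nt.Exponent
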